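import Mathlib

/-!
MP_69bc90_co: the analytic inequality. If `z` is a finite family in `[0, 1]` with
`(#{z > 1 - r} + 1) * #{z > r} ≤ s ^ 2` for `0 < r < 1 / 2` and `∑ z ≤ 3 / 2 * s`, then
`∑ z ^ 2 ≤ s`.
-/

set_option autoImplicit false

namespace Pool.Agent.PaleyLoc

open MeasureTheory intervalIntegral Set

variable {ι : Type*} [Fintype ι]

/-- the number of `i` with `t < z i` -/
noncomputable def cnt (z : ι → ℝ) (t : ℝ) : ℕ := (Finset.univ.filter fun i => t < z i).card

theorem cnt_anti (z : ι → ℝ) : Antitone (cnt z) := by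
  intro a b hab
  refine Finset.card_le_card fun i hi => ?_
  simp only [Finset.mem_filter, Finset.mem_univ, true_and] at hi ⊢
  exact lt_of_le_of_lt hab hi

theorem cnt_eq_sum (z : ι → ℝ) (t : ℝ) : (cnt z t : ℝ) = ∑ i, if t < z i then (1 : ℝ) else 0 := by
  rw [cnt, Finset.sum_ite, Finset.sum_const_zero, add_zero, Finset.sum_const, nsmul_eq_mul,
    mul_one]

/-- a bounded measurable function is interval integrable -/
theorem ii_of_bdd {f : ℝ → ℝ} (hf : Measurable f) {a b C : ℝ} (hC : ∀ x, |f x| ≤ C) :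
    IntervalIntegrable f volume a b := by
  refine ⟨?_, ?_⟩ <;>
  · refine Measure.integrableOn_of_bounded (M := C) (by simp) hf.aestronglyMeasurable ?_
    exact Filter.Eventually.of_forall fun x => by simpa [Real.norm_eq_abs] using hC x

theorem cnt_measurable (z : ι → ℝ) : Measurable fun t => (cnt z t : ℝ) := by
  have h : Antitone fun t => (cnt z t : ℝ) := fun a b hab => Nat.cast_le.2 (cnt_anti z hab)
  exact h.measurable

theorem ite_measurable (c : ℝ) : Measurable fun t : ℝ => if t < c then (1 : ℝ) else 0 :=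
  Measurable.ite measurableSet_Iio measurable_const measurable_const

/-- truncation of an integral -/
theorem int_ite {h : ℝ → ℝ} (hh : Continuous h) {a b c : ℝ} (hab : a ≤ b) (hac : a ≤ c) :
    ∫ r in a..b, h r * (if r < c then (1 : ℝ) else 0) = ∫ r in a..(min c b), h r := by
  have hi : ∀ u v : ℝ, IntervalIntegrable (fun r => h r * (if r < c then (1 : ℝ) else 0))
      volume u v := fun u v =>
    (ii_of_bdd (ite_measurable c) (C := 1) (fun x => by split_ifs <;> simp)).continuousOn_mul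
      hh.continuousOn
  have h1 : min c b ≤ b := min_le_right _ _
  have h2 : a ≤ min c b := le_min hac hab
  rw [← integral_add_adjacent_intervals (hi a (min c b)) (hi (min c b) b)]
  have e1 : ∫ r in a..(min c b), h r * (if r < c then (1 : ℝ) else 0) =
      ∫ r in a..(min c b), h r := by
    refine integral_congr_ae ?_
    have : ∀ᵐ r : ℝ ∂volume, r ≠ c := by
      simp [ae_iff, measure_singleton]
    filter_upwards [this] with r hr hm
    rw [uIoc_of_le h2] at hm
    have : r < c := lt_of_le_of_ne (hm.2.trans (min_le_left _ _)) hr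
    rw [if_pos this, mul_one]
  have e2 : ∫ r in (min c b)..b, h r * (if r < c then (1 : ℝ) else 0) = 0 := by
    rw [integral_zero_ae]
    refine Filter.Eventually.of_forall fun r hm => ?_
    rw [uIoc_of_le h1] at hm
    have : ¬ r < c := by
      intro hlt
      rcases min_lt_iff.1 hm.1 with h3 | h3
      · exact absurd h3 (not_lt.2 hlt.le)
      · exact absurd hm.2 (not_le.2 h3)
    rw [if_neg this, mul_zero]
  rw [e1, e2, add_zero]

theorem int_id (a : ℝ) : ∫ r in (0 : ℝ)..a, r = a ^ 2 / 2 := by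
  rw [integral_id]; ring

theorem int_cnt_mul {h : ℝ → ℝ} (hh : Continuous h) (z : ι → ℝ) (hz : ∀ i, 0 ≤ z i) {b : ℝ}
    (hb : 0 ≤ b) :
    ∫ r in (0 : ℝ)..b, h r * cnt z r = ∑ i, ∫ r in (0 : ℝ)..(min (z i) b), h r := by
  have e : ∀ r, h r * (cnt z r : ℝ) = ∑ i, h r * (if r < z i then (1 : ℝ) else 0) := by
    intro r
    rw [cnt_eq_sum, Finset.mul_sum]
  simp_rw [e]
  rw [intervalIntegral.integral_finsetSum]
  · exact Finset.sum_congr rfl fun i _ => int_ite hh hb (hz i)
  · intro i _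
    exact (ii_of_bdd (ite_measurable (z i)) (C := 1) (fun x => by split_ifs <;> simp)).continuousOn_mul
      hh.continuousOn

/-- `∑ z ^ 2` as an integral over `[0, 1 / 2]` -/
theorem sum_sq_eq (z : ι → ℝ) (hz : ∀ i, 0 ≤ z i) (hz1 : ∀ i, z i ≤ 1) :
    ∑ i, z i ^ 2 = ∫ r in (0 : ℝ)..(1 / 2), (2 * r * cnt z r + 2 * (1 - r) * cnt z (1 - r)) := by
  have hi : ∀ u v : ℝ, IntervalIntegrable (fun r => 2 * r * (cnt z r : ℝ)) volume u v := by
    intro u v
    refine (ii_of_bdd (cnt_measurable z) (C := Fintype.card ι) fun x => ?_).continuousOn_mul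
      (by fun_prop)
    rw [abs_of_nonneg (Nat.cast_nonneg _)]
    exact Nat.cast_le.2 (Finset.card_le_univ _)
  have e1 : ∫ r in (0 : ℝ)..1, 2 * r * cnt z r = ∑ i, z i ^ 2 := by
    rw [int_cnt_mul (h := fun r => 2 * r) (by fun_prop) z hz zero_le_one]
    refine Finset.sum_congr rfl fun i _ => ?_
    rw [intervalIntegral.integral_const_mul, int_id, min_eq_left (hz1 i)]
    ring
  have e2 : ∫ r in (0 : ℝ)..(1 / 2), 2 * (1 - r) * cnt z (1 - r) =
      ∫ r in (1 / 2 : ℝ)..1, 2 * r * cnt z r := by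
    rw [integral_comp_sub_left (fun r => 2 * r * (cnt z r : ℝ)) 1]
    norm_num
  rw [integral_add (hi _ _), e2, integral_add_adjacent_intervals (hi _ _) (hi _ _), e1]
  have h3 := (hi (1 - 0) (1 - 1 / 2)).comp_sub_left 1
  simpa using h3

/-- the primitive of the weight is nonpositive -/
theorem W_nonpos (z : ι → ℝ) (hz : ∀ i, 0 ≤ z i) {s : ℝ} (hs : 0 ≤ s)
    (he : ∑ i, z i ≤ 3 / 2 * s) {b : ℝ} (hb : 0 ≤ b) (hb2 : b ≤ 1 / 2) :
    ∫ r in (0 : ℝ)..b, (r * (cnt z r + s) - s) ≤ 0 := by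
  have e : ∀ r : ℝ, r * ((cnt z r : ℝ) + s) - s = r * cnt z r + (r * s - s) := fun r => by ring
  simp_rw [e]
  have hi : IntervalIntegrable (fun r => r * (cnt z r : ℝ)) volume 0 b := by
    refine (ii_of_bdd (cnt_measurable z) (C := Fintype.card ι) fun x => ?_).continuousOn_mul
      (by fun_prop)
    rw [abs_of_nonneg (Nat.cast_nonneg _)]
    exact Nat.cast_le.2 (Finset.card_le_univ _)
  rw [integral_add hi (Continuous.intervalIntegrable (by fun_prop) _ _),
    int_cnt_mul (h := fun r => r) (by fun_prop) z hz hb,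
    integral_sub (Continuous.intervalIntegrable (by fun_prop) _ _)
      (Continuous.intervalIntegrable (by fun_prop) _ _), intervalIntegral.integral_mul_const,
    int_id, intervalIntegral.integral_const]
  simp_rw [int_id]
  have h1 : ∑ i, (min (z i) b) ^ 2 / 2 ≤ ∑ i, b / 2 * z i := by
    refine Finset.sum_le_sum fun i _ => ?_
    have h2 : min (z i) b ≤ b := min_le_right _ _
    have h3 : min (z i) b ≤ z i := min_le_left _ _
    have h4 : 0 ≤ min (z i) b := le_min (hz i) hb
    nlinarith [mul_le_mul h3 h2 h4 (hz i)]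
  rw [← Finset.mul_sum] at h1
  have h5 : b / 2 * ∑ i, z i ≤ b / 2 * (3 / 2 * s) :=
    mul_le_mul_of_nonneg_left he (by linarith)
  simp only [sub_zero, smul_eq_mul]
  nlinarith [mul_nonneg hb hs, mul_nonneg (mul_nonneg hb hs) (sub_nonneg.2 hb2)]

/-- the integral of the weight over an initial piece of `(0, 1 / 2)` -/
theorem int_initial (z : ι → ℝ) {s : ℝ}
    (hW : ∀ b : ℝ, 0 ≤ b → b ≤ 1 / 2 → ∫ r in (0 : ℝ)..b, (r * (cnt z r + s) - s) ≤ 0) (j : ℕ) :
    ∫ r in (0 : ℝ)..(1 / 2), (r * (cnt z r + s) - s) * (if j ≤ cnt z r then (1 : ℝ) else 0) ≤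
      0 := by
  classical
  -- the initial segment
  obtain ⟨b, hb0, hb1, hb2, hb3⟩ : ∃ b : ℝ, 0 ≤ b ∧ b ≤ 1 / 2 ∧ (∀ r, 0 < r → r < b → j ≤ cnt z r) ∧
      ∀ r, b < r → r < 1 / 2 → ¬ j ≤ cnt z r := by
    set T : Set ℝ := {r | 0 ≤ r ∧ r ≤ 1 / 2 ∧ (r = 0 ∨ j ≤ cnt z r)} with hT
    have hne : T.Nonempty := ⟨0, le_refl _, by norm_num, Or.inl rfl⟩
    have hbd : BddAbove T := ⟨1 / 2, fun r hr => hr.2.1⟩
    refine ⟨sSup T, le_csSup hbd ⟨le_refl _, by norm_num, Or.inl rfl⟩,
      csSup_le hne fun r hr => hr.2.1, fun r h0 h1 => ?_, fun r h1 h2 h3 => ?_⟩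
    · obtain ⟨t, ht, hrt⟩ := exists_lt_of_lt_csSup hne h1
      rcases ht.2.2 with h4 | h4
      · exact absurd (h0.trans hrt) (by rw [h4]; exact lt_irrefl _)
      · exact h4.trans (cnt_anti z hrt.le)
    · have h0 : 0 ≤ sSup T := le_csSup hbd ⟨le_refl _, by norm_num, Or.inl rfl⟩
      exact absurd (le_csSup hbd ⟨(h0.trans h1.le), h2.le, Or.inr h3⟩) (not_le.2 h1)
  have hm1 : Measurable fun r => (if j ≤ cnt z r then (1 : ℝ) else 0) := by
    have : Antitone fun r => (if j ≤ cnt z r then (1 : ℝ) else 0) := by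
      intro a c hac
      by_cases h : j ≤ cnt z c
      · simp only [h, h.trans (cnt_anti z hac), if_true, le_refl]
      · simp only [h, if_false]
        split_ifs <;> norm_num
    exact this.measurable
  have hm2 : Measurable fun r : ℝ => r * ((cnt z r : ℝ) + s) - s :=
    (measurable_id.mul ((cnt_measurable z).add_const s)).sub_const s
  have hi : ∀ u v : ℝ, 0 ≤ u → u ≤ 1 / 2 → 0 ≤ v → v ≤ 1 / 2 → IntervalIntegrable
      (fun r => (r * (cnt z r + s) - s) * (if j ≤ cnt z r then (1 : ℝ) else 0)) volume u v := by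
    intro u v _ _ _ _
    have e : (fun r => (r * ((cnt z r : ℝ) + s) - s) * (if j ≤ cnt z r then (1 : ℝ) else 0)) =
        fun r => r * (((cnt z r : ℝ) + s) * (if j ≤ cnt z r then (1 : ℝ) else 0)) -
          s * (if j ≤ cnt z r then (1 : ℝ) else 0) := by
      funext r
      ring
    rw [e]
    refine IntervalIntegrable.sub ?_ ?_
    · refine (ii_of_bdd (C := Fintype.card ι + |s|) (((cnt_measurable z).add_const s).mul hm1)
        fun x => ?_).continuousOn_mul (by fun_prop)
      have h1 : |(cnt z x : ℝ) + s| ≤ Fintype.card ι + |s| := by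
        refine (abs_add_le _ _).trans (add_le_add ?_ le_rfl)
        rw [abs_of_nonneg (Nat.cast_nonneg _)]
        exact Nat.cast_le.2 (Finset.card_le_univ _)
      change |((cnt z x : ℝ) + s) * (if j ≤ cnt z x then (1 : ℝ) else 0)| ≤ _
      rw [abs_mul]
      have h2 : |(if j ≤ cnt z x then (1 : ℝ) else 0)| ≤ 1 := by split_ifs <;> simp
      exact (mul_le_mul h1 h2 (abs_nonneg _) (by positivity)).trans (by rw [mul_one])
    · exact (ii_of_bdd (C := 1) hm1 (fun x => by split_ifs <;> simp)).continuousOn_mul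
        (by fun_prop)
  rw [← integral_add_adjacent_intervals (hi 0 b le_rfl (by norm_num) hb0 hb1)
    (hi b (1 / 2) hb0 hb1 (by norm_num) le_rfl)]
  have e1 : ∫ r in (0 : ℝ)..b, (r * (cnt z r + s) - s) * (if j ≤ cnt z r then (1 : ℝ) else 0) =
      ∫ r in (0 : ℝ)..b, (r * (cnt z r + s) - s) := by
    refine integral_congr_ae ?_
    have : ∀ᵐ r : ℝ ∂volume, r ≠ b := by
      simp [ae_iff, measure_singleton]
    filter_upwards [this] with r hr hm
    rw [uIoc_of_le hb0] at hm
    rw [if_pos (hb2 r hm.1 (lt_of_le_of_ne hm.2 hr)), mul_one]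
  have e2 : ∫ r in b..(1 / 2), (r * (cnt z r + s) - s) * (if j ≤ cnt z r then (1 : ℝ) else 0) =
      0 := by
    refine integral_zero_ae ?_
    have : ∀ᵐ r : ℝ ∂volume, r ≠ 1 / 2 := by
      simp [ae_iff, measure_singleton]
    filter_upwards [this] with r hr hm
    rw [uIoc_of_le hb1] at hm
    rw [if_neg (hb3 r hm.1 (lt_of_le_of_ne hm.2 hr)), mul_zero]
  rw [e1, e2, add_zero]
  exact hW b hb0 hb1

/-- the function `t ↦ (1 - s / t)_+` on naturals -/
noncomputable def gfun (s : ℝ) (n : ℕ) : ℝ := if s < n then 1 - s / n else 0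

theorem gfun_nonneg {s : ℝ} (hs : 0 ≤ s) (n : ℕ) : 0 ≤ gfun s n := by
  unfold gfun
  split_ifs with h
  · have hn : (0 : ℝ) < n := lt_of_le_of_lt hs h
    rw [sub_nonneg, div_le_one hn]
    exact h.le
  · exact le_rfl

theorem gfun_mono {s : ℝ} (hs : 0 ≤ s) : Monotone (gfun s) := by
  intro a b hab
  by_cases ha : s < a
  · have hab' : (a : ℝ) ≤ b := Nat.cast_le.2 hab
    have ha0 : (0 : ℝ) < a := lt_of_le_of_lt hs ha
    unfold gfun
    rw [if_pos ha, if_pos (lt_of_lt_of_le ha hab')]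
    have := div_le_div_of_nonneg_left hs ha0 hab'
    linarith
  · have : gfun s a = 0 := by unfold gfun; rw [if_neg ha]
    rw [this]
    exact gfun_nonneg hs b

theorem gfun_zero {s : ℝ} (hs : 0 ≤ s) : gfun s 0 = 0 := by
  unfold gfun
  rw [if_neg]
  simpa using hs

/-- Abel summation -/
theorem gfun_eq_sum {s : ℝ} (hs : 0 ≤ s) {n N : ℕ} (hn : n ≤ N) :
    gfun s n = ∑ j ∈ Finset.range N, (gfun s (j + 1) - gfun s j) *
      (if j + 1 ≤ n then (1 : ℝ) else 0) := by
  have e : ∀ j, (gfun s (j + 1) - gfun s j) * (if j + 1 ≤ n then (1 : ℝ) else 0) =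
      if j ∈ Finset.range n then (gfun s (j + 1) - gfun s j) else 0 := by
    intro j
    simp only [Finset.mem_range, Nat.succ_le_iff, mul_ite, mul_one, mul_zero]
  simp_rw [e]
  rw [← Finset.sum_filter]
  have h2 : (Finset.range N).filter (fun j => j ∈ Finset.range n) = Finset.range n := by
    ext j
    simp only [Finset.mem_filter, Finset.mem_range]
    omega
  rw [h2, Finset.sum_range_sub, gfun_zero hs, sub_zero]

theorem int_g_nonpos (z : ι → ℝ) {s : ℝ} (hs : 0 ≤ s)
    (hW : ∀ b : ℝ, 0 ≤ b → b ≤ 1 / 2 → ∫ r in (0 : ℝ)..b, (r * (cnt z r + s) - s) ≤ 0) :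
    ∫ r in (0 : ℝ)..(1 / 2), gfun s (cnt z r) * (r * (cnt z r + s) - s) ≤ 0 := by
  have e : ∀ r : ℝ, gfun s (cnt z r) * (r * ((cnt z r : ℝ) + s) - s) =
      ∑ j ∈ Finset.range (Fintype.card ι), (gfun s (j + 1) - gfun s j) *
        ((r * ((cnt z r : ℝ) + s) - s) * (if j + 1 ≤ cnt z r then (1 : ℝ) else 0)) := by
    intro r
    have hc : cnt z r ≤ Fintype.card ι := Finset.card_le_univ _
    rw [gfun_eq_sum hs hc, Finset.sum_mul]
    refine Finset.sum_congr rfl fun j _ => ?_
    change (gfun s (j + 1) - gfun s j) * (if j + 1 ≤ cnt z r then (1 : ℝ) else 0) *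
      (r * ((cnt z r : ℝ) + s) - s) = _
    ring
  simp_rw [e]
  rw [intervalIntegral.integral_finsetSum]
  · refine Finset.sum_nonpos fun j _ => ?_
    rw [intervalIntegral.integral_const_mul]
    exact mul_nonpos_of_nonneg_of_nonpos (sub_nonneg.2 (gfun_mono hs (Nat.le_succ j)))
      (int_initial z hW (j + 1))
  · intro j _
    refine IntervalIntegrable.const_mul ?_ _
    have hm1 : Measurable fun r => (if j + 1 ≤ cnt z r then (1 : ℝ) else 0) := by
      have : Antitone fun r => (if j + 1 ≤ cnt z r then (1 : ℝ) else 0) := by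
        intro a c hac
        by_cases h : j + 1 ≤ cnt z c
        · simp only [h, h.trans (cnt_anti z hac), if_true, le_refl]
        · simp only [h, if_false]
          split_ifs <;> norm_num
      exact this.measurable
    have e : (fun r => (r * ((cnt z r : ℝ) + s) - s) * (if j + 1 ≤ cnt z r then (1 : ℝ) else 0)) =
        fun r => r * (((cnt z r : ℝ) + s) * (if j + 1 ≤ cnt z r then (1 : ℝ) else 0)) -
          s * (if j + 1 ≤ cnt z r then (1 : ℝ) else 0) := by
      funext r
      ring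
    rw [e]
    refine IntervalIntegrable.sub ?_ ?_
    · refine (ii_of_bdd (C := Fintype.card ι + |s|) (((cnt_measurable z).add_const s).mul hm1)
        fun x => ?_).continuousOn_mul (by fun_prop)
      have h1 : |(cnt z x : ℝ) + s| ≤ Fintype.card ι + |s| := by
        refine (abs_add_le _ _).trans (add_le_add ?_ le_rfl)
        rw [abs_of_nonneg (Nat.cast_nonneg _)]
        exact Nat.cast_le.2 (Finset.card_le_univ _)
      change |((cnt z x : ℝ) + s) * (if j + 1 ≤ cnt z x then (1 : ℝ) else 0)| ≤ _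
      rw [abs_mul]
      have h2 : |(if j + 1 ≤ cnt z x then (1 : ℝ) else 0)| ≤ 1 := by split_ifs <;> simp
      exact (mul_le_mul h1 h2 (abs_nonneg _) (by positivity)).trans (by rw [mul_one])
    · exact (ii_of_bdd (C := 1) hm1 (fun x => by split_ifs <;> simp)).continuousOn_mul
        (by fun_prop)

/-- the pointwise inequality -/
theorem pointwise {s r : ℝ} (hs : 0 ≤ s) (hr0 : 0 < r) (hr1 : r < 1 / 2) {X Y : ℕ} (hYX : Y ≤ X)
    (h : ((Y : ℝ) + 1) * X ≤ s ^ 2) :
    2 * r * X + 2 * (1 - r) * Y ≤ 2 * s + 2 * (gfun s X * (r * (X + s) - s)) := by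
  have hYX' : (Y : ℝ) ≤ X := Nat.cast_le.2 hYX
  have hY0 : (0 : ℝ) ≤ Y := Nat.cast_nonneg _
  by_cases hX : s < X
  · have hX0 : (0 : ℝ) < X := lt_of_le_of_lt hs hX
    have h1 : (Y : ℝ) ≤ s ^ 2 / X := by
      rw [le_div_iff₀ hX0]
      nlinarith
    unfold gfun
    rw [if_pos hX]
    have e : 2 * s + 2 * ((1 - s / X) * (r * (X + s) - s)) =
        2 * r * X + 2 * (1 - r) * (s ^ 2 / X) := by
      field_simp
      ring
    rw [e]
    have := mul_le_mul_of_nonneg_left h1 (by linarith : (0 : ℝ) ≤ 2 * (1 - r))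
    linarith
  · have hX' : (X : ℝ) ≤ s := not_lt.1 hX
    unfold gfun
    rw [if_neg hX]
    nlinarith [mul_nonneg hr0.le (sub_nonneg.2 hX'),
      mul_nonneg (by linarith : (0 : ℝ) ≤ 1 - r) (sub_nonneg.2 (hYX'.trans hX'))]

/-- the analytic inequality -/
theorem sum_sq_le (z : ι → ℝ) (hz : ∀ i, 0 ≤ z i) (hz1 : ∀ i, z i ≤ 1) {s : ℝ} (hs : 0 ≤ s)
    (he : ∑ i, z i ≤ 3 / 2 * s)
    (h : ∀ r : ℝ, 0 < r → r < 1 / 2 → ((cnt z (1 - r) : ℝ) + 1) * cnt z r ≤ s ^ 2) :
    ∑ i, z i ^ 2 ≤ s := by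
  have hW : ∀ b : ℝ, 0 ≤ b → b ≤ 1 / 2 → ∫ r in (0 : ℝ)..b, (r * (cnt z r + s) - s) ≤ 0 :=
    fun b hb hb2 => W_nonpos z hz hs he hb hb2
  have hg := int_g_nonpos z hs hW
  have hmg : Measurable fun r => gfun s (cnt z r) := by
    have : Antitone fun r => gfun s (cnt z r) := fun a b hab => gfun_mono hs (cnt_anti z hab)
    exact this.measurable
  have hgb : ∀ x, |gfun s (cnt z x)| ≤ 1 := by
    intro x
    rw [abs_of_nonneg (gfun_nonneg hs _)]
    unfold gfun
    split_ifs with h1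
    · have : (0 : ℝ) ≤ s / (cnt z x : ℝ) := div_nonneg hs (Nat.cast_nonneg _)
      linarith
    · exact zero_le_one
  have hi2 : IntervalIntegrable (fun r => gfun s (cnt z r) * (r * (cnt z r + s) - s)) volume
      0 (1 / 2) := by
    have e : (fun r => gfun s (cnt z r) * (r * ((cnt z r : ℝ) + s) - s)) =
        fun r => r * (gfun s (cnt z r) * ((cnt z r : ℝ) + s)) - s * gfun s (cnt z r) := by
      funext r
      ring
    rw [e]
    refine IntervalIntegrable.sub ?_ ?_
    · refine (ii_of_bdd (C := 1 * (Fintype.card ι + |s|))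
        (hmg.mul ((cnt_measurable z).add_const s)) fun x => ?_).continuousOn_mul (by fun_prop)
      have h1 : |(cnt z x : ℝ) + s| ≤ Fintype.card ι + |s| := by
        refine (abs_add_le _ _).trans (add_le_add ?_ le_rfl)
        rw [abs_of_nonneg (Nat.cast_nonneg _)]
        exact Nat.cast_le.2 (Finset.card_le_univ _)
      change |gfun s (cnt z x) * ((cnt z x : ℝ) + s)| ≤ _
      rw [abs_mul]
      exact mul_le_mul (hgb x) h1 (abs_nonneg _) zero_le_one
    · exact (ii_of_bdd (C := 1) hmg hgb).continuousOn_mul (by fun_prop)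
  have hi1 : IntervalIntegrable
      (fun r => 2 * r * (cnt z r : ℝ) + 2 * (1 - r) * (cnt z (1 - r) : ℝ)) volume 0 (1 / 2) := by
    have hb : ∀ x, |(cnt z x : ℝ)| ≤ Fintype.card ι := by
      intro x
      rw [abs_of_nonneg (Nat.cast_nonneg _)]
      exact Nat.cast_le.2 (Finset.card_le_univ _)
    refine IntervalIntegrable.add ?_ ?_
    · exact (ii_of_bdd (cnt_measurable z) hb).continuousOn_mul (by fun_prop)
    · exact (ii_of_bdd ((cnt_measurable z).comp (measurable_const.sub measurable_id))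
        fun x => hb (1 - x)).continuousOn_mul (by fun_prop)
  rw [sum_sq_eq z hz hz1]
  have h3 : ∫ r in (0 : ℝ)..(1 / 2), (2 * r * cnt z r + 2 * (1 - r) * cnt z (1 - r)) ≤
      ∫ r in (0 : ℝ)..(1 / 2), (2 * s + 2 * (gfun s (cnt z r) * (r * (cnt z r + s) - s))) := by
    refine integral_mono_ae_restrict (by norm_num) hi1 ?_ ?_
    · exact (Continuous.intervalIntegrable (by fun_prop) _ _).add (hi2.const_mul 2)
    · have h5 : ∀ᵐ r : ℝ ∂volume, r ≠ 0 ∧ r ≠ 1 / 2 := by
        rw [Filter.eventually_and]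
        constructor <;> simp [ae_iff, measure_singleton]
      have h6 : ∀ᵐ r : ℝ ∂(volume.restrict (Icc (0 : ℝ) (1 / 2))), r ∈ Icc (0 : ℝ) (1 / 2) :=
        ae_restrict_mem measurableSet_Icc
      filter_upwards [h6, ae_restrict_of_ae h5] with r hr hr2
      have hr0 : 0 < r := lt_of_le_of_ne hr.1 (Ne.symm hr2.1)
      have hr1 : r < 1 / 2 := lt_of_le_of_ne hr.2 hr2.2
      exact pointwise hs hr0 hr1 (cnt_anti z (by linarith)) (h r hr0 hr1)
  refine h3.trans ?_
  rw [integral_add (Continuous.intervalIntegrable (by fun_prop) _ _) (hi2.const_mul 2),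
    intervalIntegral.integral_const, intervalIntegral.integral_const_mul]
  simp only [sub_zero, smul_eq_mul]
  linarith

end Pool.Agent.PaleyLoc
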