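import Pool.Agent.Work.MP_69bc90_co.HP
import Pool.Agent.Work.MP_69bc90_co.Analysis

/-!
MP_69bc90_co: the theorem on the theta body from the energy bound, the pair form of the
Hanson-Petridis theorem and the analytic inequality.
-/

set_option autoImplicit false

namespace Pool.Agent.PaleyLoc

open Finset

variable {E : Type*} [NormedAddCommGroup E] [InnerProductSpace ℝ E]

/-- Bessel's inequality for two orthogonal unit vectors -/
theorem bessel_two {c u w : E} (hc : ‖c‖ = 1) (hu : ‖u‖ = 1) (hw : ‖w‖ = 1)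
    (h : inner ℝ u w = 0) : (inner ℝ c u) ^ 2 + (inner ℝ c w) ^ 2 ≤ 1 := by
  have h0 := real_inner_self_nonneg (x := c - (inner ℝ c u) • u - (inner ℝ c w) • w)
  have h' : inner ℝ w u = 0 := by rw [real_inner_comm]; exact h
  have hcc : inner ℝ c c = 1 := by rw [real_inner_self_eq_norm_sq, hc, one_pow]
  have huu : inner ℝ u u = 1 := by rw [real_inner_self_eq_norm_sq, hu, one_pow]
  have hww : inner ℝ w w = 1 := by rw [real_inner_self_eq_norm_sq, hw, one_pow]
  simp only [inner_sub_left, inner_sub_right, real_inner_smul_left, real_inner_smul_right, hcc,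
    huu, hww, h, h', real_inner_comm c u, real_inner_comm c w] at h0
  nlinarith

theorem main_of_energy {p : ℕ} [Fact p.Prime] (hp : p % 4 = 1) (c : E) (hc : ‖c‖ = 1)
    (v : ZMod p → E) (hv : ∀ x, x ≠ 0 → IsSquare x → ‖v x‖ = 1)
    (hperp : ∀ x y, x ≠ 0 → IsSquare x → y ≠ 0 → IsSquare y → ¬ IsSquare (x - y) →
      inner ℝ (v x) (v y) = 0)
    (G : Finset (ZMod p)) (hG : ∀ x, x ∈ G ↔ x ≠ 0 ∧ IsSquare x)
    (henergy : ∑ x ∈ G, (inner ℝ c (v x)) ^ 2 ≤ √p - 1) :
    ∑ x ∈ G, (inner ℝ c (v x)) ^ 4 ≤ √(((p : ℝ) - 1) / 2) := by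
  classical
  have hp1 : (1 : ℝ) ≤ p := by exact_mod_cast (Fact.out : p.Prime).one_lt.le
  have hp2 : p ≠ 2 := by omega
  set s : ℝ := √(((p : ℝ) - 1) / 2) with hs
  have hs0 : 0 ≤ s := Real.sqrt_nonneg _
  have hs2 : s ^ 2 = ((p : ℝ) - 1) / 2 := Real.sq_sqrt (by linarith)
  set z : ZMod p → ℝ := fun x => if x ∈ G then (inner ℝ c (v x)) ^ 2 else 0 with hz
  have hz0 : ∀ x, 0 ≤ z x := fun x => by
    simp only [hz]
    split_ifs
    · positivity
    · exact le_rfl
  have hz1 : ∀ x, z x ≤ 1 := fun x => by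
    simp only [hz]
    split_ifs with hx
    · have h1 := abs_real_inner_le_norm c (v x)
      rw [hc, hv x ((hG x).1 hx).1 ((hG x).1 hx).2, one_mul] at h1
      have h2 := (sq_le_one_iff_abs_le_one _).2 h1
      exact h2
    · exact zero_le_one
  have hzpos : ∀ x r, 0 < r → r < z x → x ∈ G := fun x r hr hx => by
    by_contra hn
    simp only [hz, if_neg hn] at hx
    linarith
  have hsum : ∑ x, z x = ∑ x ∈ G, (inner ℝ c (v x)) ^ 2 := by
    simp only [hz, Finset.sum_ite_mem, Finset.univ_inter]
  have hsum2 : ∑ x, z x ^ 2 = ∑ x ∈ G, (inner ℝ c (v x)) ^ 4 := by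
    have e : ∀ x, z x ^ 2 = if x ∈ G then (inner ℝ c (v x)) ^ 4 else 0 := fun x => by
      simp only [hz]
      split_ifs
      · ring
      · ring
    simp_rw [e]
    simp only [Finset.sum_ite_mem, Finset.univ_inter]
  have hneg : IsSquare (-1 : ZMod p) := ZMod.exists_sq_eq_neg_one_iff.2 (by omega)
  rw [← hsum2]
  refine sum_sq_le z hz0 hz1 hs0 ?_ fun r hr0 hr1 => ?_
  · rw [hsum]
    refine henergy.trans ?_
    have h1 : √(p : ℝ) ^ 2 = p := Real.sq_sqrt (by linarith)
    have h2 : 1 ≤ √(p : ℝ) := Real.one_le_sqrt.2 hp1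
    have h3 : (√(p : ℝ) - 1) ^ 2 ≤ (3 / 2 * s) ^ 2 := by
      rw [mul_pow, hs2]
      nlinarith
    exact (sq_le_sq₀ (by linarith) (by positivity)).1 h3
  · set A := insert (0 : ZMod p) (Finset.univ.filter fun i => 1 - r < z i) with hA
    set B := insert (0 : ZMod p) (Finset.univ.filter fun i => r < z i) with hB
    have hz00 : z 0 = 0 := by
      simp only [hz]
      rw [if_neg fun h => ((hG 0).1 h).1 rfl]
    have hAc : A.card = cnt z (1 - r) + 1 := by
      rw [hA, Finset.card_insert_of_notMem, cnt]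
      simp only [Finset.mem_filter, Finset.mem_univ, true_and, hz00]
      linarith
    have hBc : B.card = cnt z r + 1 := by
      rw [hB, Finset.card_insert_of_notMem, cnt]
      simp only [Finset.mem_filter, Finset.mem_univ, true_and, hz00]
      linarith
    have hAB : A ⊆ B := by
      refine Finset.insert_subset_insert _ fun i hi => ?_
      simp only [Finset.mem_filter, Finset.mem_univ, true_and] at hi ⊢
      linarith
    have h := hp_pair hp2 hAB ⟨0, Finset.mem_insert_self _ _⟩ ?_
    · rw [hAc, hBc, Nat.add_sub_cancel] at h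
      have h2 : (((cnt z (1 - r) + 1) * cnt z r : ℕ) : ℝ) ≤ ((p / 2 : ℕ) : ℝ) := by
        exact_mod_cast h
      have h3 : ((p / 2 : ℕ) : ℝ) = ((p : ℝ) - 1) / 2 := by
        have h4 : p = 2 * (p / 2) + 1 := by omega
        have h5 : (p : ℝ) = 2 * ((p / 2 : ℕ) : ℝ) + 1 := by exact_mod_cast h4
        linarith
      rw [hs2, ← h3]
      push_cast at h2 ⊢
      exact h2
    · intro a ha b hb hab
      rcases Finset.mem_insert.1 ha with ha0 | ha1
      · subst ha0
        rcases Finset.mem_insert.1 hb with hb0 | hb1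
        · exact absurd hb0.symm hab
        · simp only [Finset.mem_filter, Finset.mem_univ, true_and] at hb1
          have := ((hG b).1 (hzpos b r hr0 hb1)).2
          rw [zero_sub, neg_eq_neg_one_mul]
          exact hneg.mul this
      · simp only [Finset.mem_filter, Finset.mem_univ, true_and] at ha1
        have haG := hzpos a (1 - r) (by linarith) ha1
        rcases Finset.mem_insert.1 hb with hb0 | hb1
        · subst hb0
          rw [sub_zero]
          exact ((hG a).1 haG).2
        · simp only [Finset.mem_filter, Finset.mem_univ, true_and] at hb1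
          have hbG := hzpos b r hr0 hb1
          by_contra hns
          have h1 := hperp a b ((hG a).1 haG).1 ((hG a).1 haG).2 ((hG b).1 hbG).1
            ((hG b).1 hbG).2 hns
          have h2 := bessel_two hc (hv a ((hG a).1 haG).1 ((hG a).1 haG).2)
            (hv b ((hG b).1 hbG).1 ((hG b).1 hbG).2) h1
          simp only [hz, if_pos haG] at ha1
          simp only [hz, if_pos hbG] at hb1
          linarith

end Pool.Agent.PaleyLoc
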