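import Mathlib

/-!
# The bound of Lovasz for the localized Paley graph, in the form with a handle

For unit vectors `v x` (`x` in a set `G` of nonzero squares of `ZMod p`, `p ≡ 1 mod 4`) with
`v x ⊥ v y` when `x - y` is a nonsquare, and for every unit vector `c`, the sum of the squares
`⟪c, v x⟫ ^ 2` is at most `√p - 1`.
-/

namespace Pool.Agent.PaleyLoc

open Finset

variable {p : ℕ} [Fact p.Prime] {E : Type*} [NormedAddCommGroup E] [InnerProductSpace ℝ E]

/-- the quadratic character with real values -/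
noncomputable def eta (x : ZMod p) : ℝ := (quadraticChar (ZMod p) x : ℤ)

theorem eta_sum (hp : p % 4 = 1) (x : ZMod p) : ∑ z : ZMod p, eta (z - x) = 0 := by
  have h2 : ringChar (ZMod p) ≠ 2 := by
    rw [ZMod.ringChar_zmod_n]
    rintro rfl
    omega
  have h1 : ∑ z : ZMod p, quadraticChar (ZMod p) (z - x) = 0 := by
    rw [← quadraticChar_sum_zero h2]
    exact Fintype.sum_equiv (Equiv.subRight x) _ _ fun z => rfl
  unfold eta
  exact_mod_cast h1

theorem char_neg_one (hp : p % 4 = 1) : quadraticChar (ZMod p) (-1) = 1 := by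
  have h2 : ringChar (ZMod p) ≠ 2 := by
    rw [ZMod.ringChar_zmod_n]
    rintro rfl
    omega
  rw [quadraticChar_one_iff_isSquare (neg_ne_zero.2 one_ne_zero)]
  rw [ZMod.exists_sq_eq_neg_one_iff]
  omega

theorem eta_corr (hp : p % 4 = 1) (x y : ZMod p) :
    ∑ z : ZMod p, eta (z - x) * eta (z - y) = if x = y then (p : ℝ) - 1 else -1 := by
  have h2 : ringChar (ZMod p) ≠ 2 := by
    rw [ZMod.ringChar_zmod_n]
    rintro rfl
    omega
  have hprime : p.Prime := Fact.out
  split_ifs with hxy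
  · subst hxy
    have h1 : ∀ z : ZMod p, eta (z - x) * eta (z - x) = if z = x then 0 else 1 := by
      intro z
      unfold eta
      split_ifs with h
      · subst h
        simp
      · have := quadraticChar_sq_one (F := ZMod p) (sub_ne_zero.2 h)
        rw [← sq]
        exact_mod_cast this
    rw [sum_congr rfl fun z _ => h1 z, sum_ite, sum_const_zero, zero_add, sum_const,
      filter_ne' , card_erase_of_mem (mem_univ x), card_univ, ZMod.card]
    rw [nsmul_eq_mul, mul_one, Nat.cast_sub hprime.one_lt.le, Nat.cast_one]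
  · have hd : y - x ≠ 0 := sub_ne_zero.2 (Ne.symm hxy)
    have h3 := jacobiSum_nontrivial_inv (quadraticChar_ne_one h2)
    have h4 : (quadraticChar (ZMod p))⁻¹ = quadraticChar (ZMod p) :=
      (quadraticChar_isQuadratic (ZMod p)).inv
    rw [h4, char_neg_one hp, jacobiSum] at h3
    have h5 : ∑ z : ZMod p, quadraticChar (ZMod p) (z - x) * quadraticChar (ZMod p) (z - y) =
        ∑ t : ZMod p, quadraticChar (ZMod p) t * quadraticChar (ZMod p) (1 - t) := by
      symm
      refine Fintype.sum_equiv ((Equiv.mulLeft₀ (y - x) hd).trans (Equiv.addRight x)) _ _ ?_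
      intro t
      have e1 : ((Equiv.mulLeft₀ (y - x) hd).trans (Equiv.addRight x)) t = (y - x) * t + x := rfl
      rw [e1]
      have e2 : (y - x) * t + x - x = (y - x) * t := by ring
      have e3 : (y - x) * t + x - y = (-1) * (y - x) * (1 - t) := by ring
      rw [e2, e3, map_mul, map_mul, map_mul, char_neg_one hp]
      have e4 := quadraticChar_sq_one (F := ZMod p) hd
      linear_combination (-(quadraticChar (ZMod p) t * quadraticChar (ZMod p) (1 - t))) * e4
    rw [h3] at h5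
    unfold eta
    exact_mod_cast h5

/-- the positive kernel -/
theorem kernel (hp : p % 4 = 1) (w : ZMod p → E) :
    √p * ∑ x, ∑ y, eta (x - y) * inner ℝ (w x) (w y) + ‖∑ x, w x‖ ^ 2 ≤
      p * ∑ x, ‖w x‖ ^ 2 := by
  have hprime : p.Prime := Fact.out
  have hp0 : (0 : ℝ) < p := by exact_mod_cast hprime.pos
  have hs : √(p : ℝ) * √p = p := Real.mul_self_sqrt hp0.le
  have hs0 : 0 < √(p : ℝ) := Real.sqrt_pos.2 hp0
  set S : E := ∑ x, w x with hS
  set T : ZMod p → E := fun z => ∑ x, eta (z - x) • w x with hT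
  have h1 : 0 ≤ ∑ z, ‖(p : ℝ) • w z - √p • T z - S‖ ^ 2 := sum_nonneg fun _ _ => sq_nonneg _
  have h2 : ∀ z, ‖(p : ℝ) • w z - √p • T z - S‖ ^ 2 = p ^ 2 * ‖w z‖ ^ 2 + p * ‖T z‖ ^ 2 + ‖S‖ ^ 2
      - 2 * p * √p * inner ℝ (w z) (T z) - 2 * p * inner ℝ (w z) S +
        2 * √p * inner ℝ (T z) S := by
    intro z
    rw [norm_sub_sq_real, norm_sub_sq_real, norm_smul, norm_smul, inner_sub_left, inner_smul_left,
      inner_smul_left, inner_smul_left, inner_smul_right, mul_pow, mul_pow,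
      Real.norm_of_nonneg hp0.le, Real.norm_of_nonneg hs0.le, Real.sq_sqrt hp0.le]
    simp only [conj_trivial]
    ring
  have h3 : ∑ z, inner ℝ (w z) S = ‖S‖ ^ 2 := by
    rw [← sum_inner, ← hS, real_inner_self_eq_norm_sq]
  have h4 : ∑ z, inner ℝ (T z) S = 0 := by
    rw [← sum_inner, hT]
    have : ∑ z, ∑ x, eta (z - x) • w x = 0 := by
      rw [sum_comm]
      refine sum_eq_zero fun x _ => ?_
      rw [← sum_smul, eta_sum hp, zero_smul]
    rw [this, inner_zero_left]
  have h5 : ∑ z, inner ℝ (w z) (T z) = ∑ x, ∑ y, eta (x - y) * inner ℝ (w x) (w y) := by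
    refine sum_congr rfl fun x _ => ?_
    rw [hT, inner_sum]
    refine sum_congr rfl fun y _ => ?_
    rw [inner_smul_right]
  have h6 : ∑ z, ‖T z‖ ^ 2 = p * ∑ x, ‖w x‖ ^ 2 - ‖S‖ ^ 2 := by
    have e1 : ∀ z, ‖T z‖ ^ 2 = ∑ x, ∑ y, eta (z - x) * eta (z - y) * inner ℝ (w x) (w y) := by
      intro z
      rw [← real_inner_self_eq_norm_sq, hT, sum_inner]
      refine sum_congr rfl fun x _ => ?_
      rw [inner_sum]
      refine sum_congr rfl fun y _ => ?_
      rw [inner_smul_left, inner_smul_right]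
      simp only [conj_trivial]
      ring
    have e2 : ∑ z, ‖T z‖ ^ 2 =
        ∑ x, ∑ y, (∑ z, eta (z - x) * eta (z - y)) * inner ℝ (w x) (w y) := by
      rw [sum_congr rfl fun z _ => e1 z, sum_comm]
      refine sum_congr rfl fun x _ => ?_
      rw [sum_comm]
      refine sum_congr rfl fun y _ => ?_
      rw [sum_mul]
    have e3 : ∀ x y : ZMod p, (∑ z, eta (z - x) * eta (z - y)) * inner ℝ (w x) (w y) =
        (if x = y then (p : ℝ) * ‖w x‖ ^ 2 else 0) - inner ℝ (w x) (w y) := by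
      intro x y
      rw [eta_corr hp]
      split_ifs with h
      · subst h
        rw [real_inner_self_eq_norm_sq]
        ring
      · ring
    rw [e2, sum_congr rfl fun x _ => sum_congr rfl fun y _ => e3 x y]
    simp only [sum_sub_distrib, sum_ite_eq, mem_univ, if_true]
    rw [← mul_sum]
    congr 1
    rw [← real_inner_self_eq_norm_sq, hS, sum_inner]
    refine sum_congr rfl fun x _ => ?_
    rw [inner_sum]
  rw [sum_congr rfl fun z _ => h2 z] at h1
  simp only [sum_add_distrib, sum_sub_distrib, ← mul_sum, sum_const, card_univ, ZMod.card,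
    nsmul_eq_mul] at h1
  rw [h3, h4, h5, h6] at h1
  set N := ∑ x, ‖w x‖ ^ 2
  set Q := ∑ x, ∑ y, eta (x - y) * inner ℝ (w x) (w y)
  have h7 : 0 ≤ (2 * p) * ((p : ℝ) * N - (√p * Q + ‖S‖ ^ 2)) + (p * ‖S‖ ^ 2 - p * ‖S‖ ^ 2) := by
    refine h1.trans (le_of_eq ?_)
    ring
  have h8 : 0 ≤ (p : ℝ) * N - (√p * Q + ‖S‖ ^ 2) := by
    rw [sub_self, add_zero] at h7
    exact nonneg_of_mul_nonneg_right h7 (by positivity)
  linarith

theorem sum_split {M : Type*} [AddCommMonoid M] {G : Finset (ZMod p)} (h0 : (0 : ZMod p) ∉ G)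
    (F : ZMod p → M) (hF : ∀ x, x ∉ insert 0 G → F x = 0) :
    ∑ x, F x = F 0 + ∑ x ∈ G, F x := by
  rw [← sum_subset (subset_univ (insert 0 G)) (fun x _ hx => hF x hx), sum_insert h0]

/-- **Lovasz's bound with a handle.** -/
theorem energy (hp : p % 4 = 1) (c : E) (hc : ‖c‖ = 1) (G : Finset (ZMod p))
    (hG : ∀ x ∈ G, x ≠ 0 ∧ IsSquare x) (v : ZMod p → E) (hv : ∀ x ∈ G, ‖v x‖ = 1)
    (hperp : ∀ x ∈ G, ∀ y ∈ G, x ≠ y → ¬ IsSquare (x - y) → inner ℝ (v x) (v y) = 0) :
    ∑ x ∈ G, (inner ℝ c (v x)) ^ 2 ≤ √p - 1 := by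
  classical
  have hprime : p.Prime := Fact.out
  have hp5 : 5 ≤ p := by
    have := hprime.two_le
    rcases Nat.lt_or_ge p 5 with h | h
    · interval_cases p <;> omega
    · exact h
  have hp0 : (0 : ℝ) < p := by exact_mod_cast hprime.pos
  have hs : √(p : ℝ) * √p = p := Real.mul_self_sqrt hp0.le
  have hs2 : 2 ≤ √(p : ℝ) := by
    apply Real.le_sqrt_of_sq_le
    have : (5 : ℝ) ≤ p := by exact_mod_cast hp5
    linarith
  set s : ℝ := √(p : ℝ) with hsdef
  set Z : ℝ := ∑ x ∈ G, (inner ℝ c (v x)) ^ 2 with hZ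
  have hZ0 : 0 ≤ Z := sum_nonneg fun _ _ => sq_nonneg _
  set κ : ℝ := Z / (s - 1) with hκ
  have h0G : (0 : ZMod p) ∉ G := fun h => (hG 0 h).1 rfl
  set w : ZMod p → E := fun x => if x = 0 then κ • c else
    if x ∈ G then (inner ℝ c (v x) : ℝ) • v x else 0 with hw
  have hw0 : w 0 = κ • c := by simp [hw]
  have hwG : ∀ x ∈ G, w x = (inner ℝ c (v x) : ℝ) • v x := by
    intro x hx
    have : x ≠ 0 := (hG x hx).1
    simp [hw, this, hx]
  have hwout : ∀ x, x ∉ insert 0 G → w x = 0 := by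
    intro x hx
    rw [mem_insert, not_or] at hx
    simp [hw, hx.1, hx.2]
  set W : E := ∑ x ∈ G, (inner ℝ c (v x) : ℝ) • v x with hW
  have hcW : inner ℝ c W = Z := by
    rw [hW, inner_sum, hZ]
    refine sum_congr rfl fun x _ => ?_
    rw [inner_smul_right]
    ring
  have hWn : Z ^ 2 ≤ ‖W‖ ^ 2 := by
    have h1 : Z ≤ ‖W‖ := by
      rw [← hcW]
      have := real_inner_le_norm c W
      rwa [hc, one_mul] at this
    exact pow_le_pow_left₀ hZ0 h1 2
  have hsum : ∑ x, w x = κ • c + W := by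
    rw [sum_split h0G w hwout, hw0]
    congr 1
    exact sum_congr rfl hwG
  have hN : ∑ x, ‖w x‖ ^ 2 = κ ^ 2 + Z := by
    rw [sum_split h0G (fun x => ‖w x‖ ^ 2) (fun x hx => by simp only [hwout x hx]; simp)]
    simp only [hw0]
    rw [norm_smul, hc, mul_one, Real.norm_eq_abs, sq_abs]
    congr 1
    refine sum_congr rfl fun x hx => ?_
    rw [hwG x hx, norm_smul, hv x hx, mul_one, Real.norm_eq_abs, sq_abs]
  have heta : ∀ x ∈ G, eta (0 - x) = 1 ∧ eta (x - 0) = 1 := by
    intro x hx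
    obtain ⟨hx0, hxs⟩ := hG x hx
    have h1 : quadraticChar (ZMod p) x = 1 := (quadraticChar_one_iff_isSquare hx0).2 hxs
    have h2 : quadraticChar (ZMod p) (0 - x) = 1 := by
      rw [show (0 - x : ZMod p) = (-1) * x by ring, map_mul, char_neg_one hp, h1, mul_one]
    unfold eta
    rw [h2, sub_zero, h1]
    simp
  have hinner : ∀ x ∈ G, ∀ y ∈ G, eta (x - y) * inner ℝ (w x) (w y) =
      inner ℝ (w x) (w y) - if x = y then (inner ℝ c (v x)) ^ 2 else 0 := by
    intro x hx y hy
    split_ifs with hxy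
    · subst hxy
      have : (eta (x - x) : ℝ) = 0 := by simp [eta]
      rw [this, zero_mul, hwG x hx, real_inner_self_eq_norm_sq, norm_smul, hv x hx, mul_one,
        Real.norm_eq_abs, sq_abs, sub_self]
    · rw [sub_zero]
      by_cases hsq : IsSquare (x - y)
      · have h1 : quadraticChar (ZMod p) (x - y) = 1 :=
          (quadraticChar_one_iff_isSquare (sub_ne_zero.2 hxy)).2 hsq
        unfold eta
        rw [h1]
        simp
      · rw [hwG x hx, hwG y hy, inner_smul_left, inner_smul_right, hperp x hx y hy hxy hsq]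
        simp
  have hQ : ∑ x, ∑ y, eta (x - y) * inner ℝ (w x) (w y) = 2 * κ * Z + ‖W‖ ^ 2 - Z := by
    have e1 : ∀ x, x ∉ insert 0 G → ∑ y, eta (x - y) * inner ℝ (w x) (w y) = 0 := by
      intro x hx
      refine sum_eq_zero fun y _ => ?_
      rw [hwout x hx, inner_zero_left, mul_zero]
    have e2 : ∀ x, ∀ y, y ∉ insert 0 G → eta (x - y) * inner ℝ (w x) (w y) = 0 := by
      intro x y hy
      rw [hwout y hy, inner_zero_right, mul_zero]
    rw [sum_split h0G _ e1, sum_split h0G _ (e2 0)]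
    have e3 : (eta ((0 : ZMod p) - 0) : ℝ) = 0 := by simp [eta]
    have e4 : ∑ x ∈ G, eta (0 - x) * inner ℝ (w 0) (w x) = κ * Z := by
      rw [hZ, mul_sum]
      refine sum_congr rfl fun x hx => ?_
      rw [(heta x hx).1, hw0, hwG x hx, inner_smul_left, inner_smul_right]
      simp only [conj_trivial]
      ring
    have e5 : ∑ x ∈ G, ∑ y, eta (x - y) * inner ℝ (w x) (w y) =
        κ * Z + (‖W‖ ^ 2 - Z) := by
      have e6 : ∀ x ∈ G, ∑ y, eta (x - y) * inner ℝ (w x) (w y) =
          κ * (inner ℝ c (v x)) ^ 2 + ((∑ y ∈ G, inner ℝ (w x) (w y)) -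
            (inner ℝ c (v x)) ^ 2) := by
        intro x hx
        rw [sum_split h0G _ (e2 x)]
        congr 1
        · rw [(heta x hx).2, hw0, hwG x hx, inner_smul_left, inner_smul_right, real_inner_comm]
          simp only [conj_trivial]
          ring
        · rw [sum_congr rfl fun y hy => hinner x hx y hy, sum_sub_distrib, sum_ite_eq, if_pos hx]
      rw [sum_congr rfl e6, sum_add_distrib, sum_sub_distrib, ← mul_sum, ← hZ]
      congr 2
      rw [← real_inner_self_eq_norm_sq, hW, sum_inner]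
      refine sum_congr rfl fun x hx => ?_
      rw [inner_sum]
      refine sum_congr rfl fun y hy => ?_
      rw [hwG x hx, hwG y hy]
    rw [e3, e4, e5]
    ring
  have hK := kernel hp w
  rw [hQ, hsum, hN, norm_add_sq_real, norm_smul, hc, inner_smul_left, hcW, Real.norm_eq_abs] at hK
  simp only [conj_trivial, mul_one, sq_abs] at hK
  rw [← hsdef, ← hs] at hK
  -- `(s - 1) κ ^ 2 - 2 κ Z + s Z - ‖W‖ ^ 2 ≥ 0`
  have hs1 : 0 < s - 1 := by linarith
  have hκ1 : κ * (s - 1) = Z := by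
    rw [hκ]
    field_simp
  have h1 : 0 ≤ (s + 1) * ((s - 1) * κ ^ 2 - 2 * κ * Z + s * Z - ‖W‖ ^ 2) := by
    nlinarith [hK]
  have h2 : 0 ≤ (s - 1) * κ ^ 2 - 2 * κ * Z + s * Z - ‖W‖ ^ 2 :=
    nonneg_of_mul_nonneg_right h1 (by linarith)
  have h3 : (s - 1) * κ ^ 2 = κ * Z := by
    rw [← hκ1]
    ring
  have h4 : 0 ≤ s * Z - κ * Z - Z ^ 2 := by
    rw [h3] at h2
    linarith
  have h5 : 0 ≤ (s - 1) * (s * Z - κ * Z - Z ^ 2) := mul_nonneg hs1.le h4
  have h6 : (s - 1) * (s * Z - κ * Z - Z ^ 2) = s * Z * ((s - 1) - Z) := by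
    have : (s - 1) * (κ * Z) = Z ^ 2 := by
      rw [← hκ1]
      ring
    linear_combination (-1) * this
  rw [h6] at h5
  rcases hZ0.lt_or_eq with hpos | hzero
  · have h7 : 0 < s * Z := by positivity
    have := nonneg_of_mul_nonneg_right h5 h7
    linarith
  · rw [← hzero]
    linarith

end Pool.Agent.PaleyLoc
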