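import Mathlib

/-!
# The theorem of Hanson and Petridis for pairs of sets

`A ⊆ B ⊆ ZMod p` with all differences `a - b`, `a ∈ A`, `b ∈ B`, squares or zero satisfy
`|A| (|B| - 1) ≤ (p - 1) / 2`.
-/

namespace Pool.Agent.PaleyLoc

open Finset Polynomial

variable {p : ℕ} [Fact p.Prime]

/-- the Lagrange weights -/
noncomputable def wt (A : Finset (ZMod p)) (a : ZMod p) : ZMod p := (∏ j ∈ A.erase a, (a - j))⁻¹

theorem sum_wt {A : Finset (ZMod p)} {P : (ZMod p)[X]} (hP : P.degree < #A) :
    ∑ a ∈ A, wt A a * P.eval a = P.coeff (#A - 1) := by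
  rw [Lagrange.coeff_eq_sum (v := id) (Set.injOn_id _) hP]
  refine sum_congr rfl fun a _ => ?_
  simp [wt, div_eq_mul_inv, mul_comm]

theorem sum_wt_pow {A : Finset (ZMod p)} (hA : A.Nonempty) (b : ZMod p) {k : ℕ}
    (hk : k ≤ #A - 1) : ∑ a ∈ A, wt A a * (a - b) ^ k = if k = #A - 1 then 1 else 0 := by
  have hc : 0 < #A := hA.card_pos
  have hdeg : ((X - C b : (ZMod p)[X]) ^ k).natDegree = k := by
    rw [natDegree_pow, natDegree_X_sub_C, mul_one]
  have hmon : ((X - C b : (ZMod p)[X]) ^ k).Monic := (monic_X_sub_C b).pow k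
  have hd : ((X - C b : (ZMod p)[X]) ^ k).degree < #A := by
    rw [degree_eq_natDegree hmon.ne_zero, hdeg]
    exact_mod_cast (by omega : k < #A)
  have h := sum_wt hd
  simp only [eval_pow, eval_sub, eval_X, eval_C] at h
  rw [h]
  split_ifs with hkk
  · rw [← hkk]
    have := hmon.coeff_natDegree
    rwa [hdeg] at this
  · apply coeff_eq_zero_of_natDegree_lt
    rw [hdeg]
    omega

/-- the auxiliary polynomial -/
noncomputable def auxF (A : Finset (ZMod p)) (D : ℕ) : (ZMod p)[X] :=
  ∑ a ∈ A, C (wt A a) * (C a - X) ^ D - 1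

theorem dvd_auxF {A : Finset (ZMod p)} {D k : ℕ} {b : ZMod p}
    (h : ∀ m < k, ∑ a ∈ A, wt A a * (a - b) ^ (D - m) = if m = 0 then 1 else 0) :
    (X - C b) ^ k ∣ auxF A D := by
  have e1 : ∀ a, (C a - X : (ZMod p)[X]) ^ D = ∑ m ∈ range (D + 1),
      (C b - X) ^ m * C ((a - b) ^ (D - m) * (D.choose m : ZMod p)) := by
    intro a
    have h1 : (C a - X : (ZMod p)[X]) = (C b - X) + C (a - b) := by
      rw [C_sub]
      ring
    rw [h1, add_pow]
    refine sum_congr rfl fun m _ => ?_
    rw [C_mul, C_pow, ← C_eq_natCast, ← mul_assoc]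
  have e2 : auxF A D = ∑ m ∈ range (D + 1), ((C b - X) ^ m *
      C ((D.choose m : ZMod p) * ∑ a ∈ A, wt A a * (a - b) ^ (D - m)) -
        if m = 0 then 1 else 0) := by
    have e3 : ∑ m ∈ range (D + 1), (if m = 0 then (1 : (ZMod p)[X]) else 0) = 1 := by
      rw [sum_ite_eq' (range (D + 1)) 0]
      simp
    rw [sum_sub_distrib, e3, auxF]
    congr 1
    calc ∑ a ∈ A, C (wt A a) * (C a - X) ^ D = ∑ a ∈ A, ∑ m ∈ range (D + 1),
        C (wt A a) * ((C b - X) ^ m * C ((a - b) ^ (D - m) * (D.choose m : ZMod p))) := by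
          refine sum_congr rfl fun a _ => ?_
          rw [e1 a, mul_sum]
      _ = ∑ m ∈ range (D + 1), ∑ a ∈ A,
        C (wt A a) * ((C b - X) ^ m * C ((a - b) ^ (D - m) * (D.choose m : ZMod p))) := sum_comm
      _ = _ := by
          refine sum_congr rfl fun m _ => ?_
          rw [mul_sum, map_sum, mul_sum]
          refine sum_congr rfl fun a _ => ?_
          simp only [C_mul]
          ring
  rw [e2]
  refine dvd_sum fun m _ => ?_
  by_cases hm : m < k
  · rw [h m hm]
    by_cases h0 : m = 0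
    · subst h0
      simp
    · simp [h0]
  · push Not at hm
    by_cases h0 : m = 0
    · have hk : k = 0 := by omega
      subst hk
      simp
    · rw [if_neg h0, sub_zero]
      refine Dvd.dvd.mul_right ((pow_dvd_pow_of_dvd ?_ k).trans (pow_dvd_pow _ hm)) _
      exact ⟨-1, by ring⟩

theorem coeff_auxF (A : Finset (ZMod p)) (D j : ℕ) (hj : j ≠ 0) :
    (auxF A D).coeff j =
      (-1) ^ D * (-1) ^ (D - j) * (D.choose j : ZMod p) * ∑ a ∈ A, wt A a * a ^ (D - j) := by
  have e1 : ∀ a : ZMod p, ((C a - X : (ZMod p)[X]) ^ D).coeff j =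
      (-1) ^ D * ((-1) ^ (D - j) * a ^ (D - j) * (D.choose j : ZMod p)) := by
    intro a
    have h1 : (C a - X : (ZMod p)[X]) ^ D = C ((-1) ^ D) * (X - C a) ^ D := by
      rw [C_pow, ← mul_pow]
      congr 1
      simp
    rw [h1, coeff_C_mul, sub_eq_add_neg, ← C_neg, coeff_X_add_C_pow, neg_pow a]
  rw [auxF, coeff_sub, finsetSum_coeff, coeff_one, if_neg hj, sub_zero, mul_sum]
  refine sum_congr rfl fun a _ => ?_
  rw [coeff_C_mul, e1 a]
  ring

/-- **Hanson-Petridis for pairs.** -/
theorem hp_pair (hp2 : p ≠ 2) {A B : Finset (ZMod p)} (hAB : A ⊆ B) (hA : A.Nonempty)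
    (h : ∀ a ∈ A, ∀ b ∈ B, a ≠ b → IsSquare (a - b)) : #A * (#B - 1) ≤ p / 2 := by
  classical
  have hp : p.Prime := Fact.out
  have hpodd : p % 2 = 1 := hp.eq_two_or_odd.resolve_left hp2
  set d : ℕ := p / 2 with hd
  have hd1 : 1 ≤ d := by
    have := hp.two_le
    omega
  set n : ℕ := #A with hn
  have hn1 : 1 ≤ n := hA.card_pos
  have hone : ∀ a ∈ A, ∀ b ∈ B, a ≠ b → (a - b) ^ d = 1 := by
    intro a ha b hb hab
    exact (ZMod.euler_criterion p (sub_ne_zero.2 hab)).1 (h a ha b hb hab)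
  -- `n ≤ d + 1`
  have hnd : n ≤ d + 1 := by
    obtain ⟨a₀, ha₀⟩ := hA
    have h1 : (A.erase a₀).image (fun a => a - a₀) ⊆ (nthRoots d (1 : ZMod p)).toFinset := by
      intro x hx
      obtain ⟨a, ha, rfl⟩ := mem_image.1 hx
      rw [mem_erase] at ha
      rw [Multiset.mem_toFinset, mem_nthRoots (by omega)]
      exact hone a ha.2 a₀ (hAB ha₀) ha.1
    have h2 := (card_le_card h1).trans ((Multiset.toFinset_card_le _).trans (card_nthRoots d 1))
    rw [card_image_of_injective _ (sub_left_injective), card_erase_of_mem ha₀] at h2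
    omega
  set D : ℕ := n - 1 + d with hD
  have hDp : D < p := by omega
  -- divisibility
  have hdvd : ∀ b ∈ B, (X - C b : (ZMod p)[X]) ^ (if b ∈ A then n - 1 else n) ∣ auxF A D := by
    intro b hb
    apply dvd_auxF
    intro m hm
    have hm1 : m ≤ n - 1 := by
      split_ifs at hm <;> omega
    have hterm : ∀ a ∈ A, (a - b) ^ (D - m) = (a - b) ^ (n - 1 - m) := by
      intro a ha
      by_cases hab : a = b
      · subst hab
        rw [if_pos ha] at hm
        rw [sub_self, zero_pow (by omega), zero_pow (by omega)]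
      · have h1 : D - m = (n - 1 - m) + d := by omega
        rw [h1, pow_add, hone a ha b hb hab, mul_one]
    rw [sum_congr rfl fun a ha => by rw [hterm a ha], sum_wt_pow hA b (by omega)]
    by_cases h0 : m = 0
    · rw [if_pos (by omega), if_pos h0]
    · rw [if_neg (by omega), if_neg h0]
  have hprod : ∏ b ∈ B, (X - C b : (ZMod p)[X]) ^ (if b ∈ A then n - 1 else n) ∣ auxF A D := by
    refine prod_dvd_of_coprime ?_ hdvd
    intro a _ b _ hab
    exact (isCoprime_X_sub_C_of_isUnit_sub ((sub_ne_zero.2 hab).isUnit)).pow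
  -- the degree
  have hcoeff : (auxF A D).coeff d ≠ 0 := by
    rw [coeff_auxF A D d (by omega)]
    have h1 : D - d = n - 1 := by omega
    have h2 := sum_wt_pow hA (0 : ZMod p) (k := n - 1) le_rfl
    simp only [sub_zero, ← hn] at h2
    rw [if_pos trivial] at h2
    rw [h1, h2, mul_one]
    have h3 : ((D.choose d : ℕ) : ZMod p) ≠ 0 := by
      rw [Ne, ZMod.natCast_eq_zero_iff]
      intro h4
      have h5 : p ∣ D.factorial := by
        rw [← Nat.choose_mul_factorial_mul_factorial (show d ≤ D by omega)]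
        exact (h4.mul_right _).mul_right _
      rw [hp.dvd_factorial] at h5
      omega
    exact mul_ne_zero (mul_ne_zero (pow_ne_zero _ (neg_ne_zero.2 one_ne_zero))
      (pow_ne_zero _ (neg_ne_zero.2 one_ne_zero))) h3
  have hne : auxF A D ≠ 0 := fun h0 => hcoeff (by rw [h0, coeff_zero])
  have hdeg : (auxF A D).natDegree ≤ d := by
    rw [natDegree_le_iff_coeff_eq_zero]
    intro j hj
    rw [coeff_auxF A D j (by omega)]
    by_cases hjD : j ≤ D
    · have h2 := sum_wt_pow hA (0 : ZMod p) (k := D - j) (by omega)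
      simp only [sub_zero] at h2
      rw [h2, if_neg (by omega), mul_zero]
    · rw [Nat.choose_eq_zero_of_lt (by omega)]
      simp
  have hle := (natDegree_le_of_dvd hprod hne).trans hdeg
  rw [natDegree_prod _ _ fun b _ => pow_ne_zero _ (X_sub_C_ne_zero b)] at hle
  have hsum : ∑ b ∈ B, ((X - C b : (ZMod p)[X]) ^ (if b ∈ A then n - 1 else n)).natDegree =
      n * (#B - 1) := by
    have h1 : ∀ b ∈ B, ((X - C b : (ZMod p)[X]) ^ (if b ∈ A then n - 1 else n)).natDegree =
        if b ∈ A then n - 1 else n := by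
      intro b _
      rw [natDegree_pow, natDegree_X_sub_C, mul_one]
    rw [sum_congr rfl h1, sum_ite, sum_const, sum_const, smul_eq_mul, smul_eq_mul]
    have h2 : B.filter (fun b => b ∈ A) = A := by
      ext b
      simp only [mem_filter]
      exact ⟨fun h => h.2, fun h => ⟨hAB h, h⟩⟩
    have h3 : #(B.filter (fun b => b ∉ A)) = #B - n := by
      have h4 := card_filter_add_card_filter_not (s := B) (fun b => b ∈ A)
      rw [h2] at h4
      omega
    rw [h2, h3, ← hn]
    have h5 : n ≤ #B := card_le_card hAB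
    obtain ⟨t, ht⟩ := Nat.exists_eq_add_of_le h5
    obtain ⟨k, hk⟩ := Nat.exists_eq_add_of_le hn1
    rw [ht, hk]
    have e1 : 1 + k - 1 = k := by omega
    have e2 : 1 + k + t - (1 + k) = t := by omega
    have e3 : 1 + k + t - 1 = k + t := by omega
    rw [e1, e2, e3]
    ring
  rwa [hsum] at hle

end Pool.Agent.PaleyLoc
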